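import Pool.Agent.Q138.SN.Zero

/-!
# Small inductive dimension and decompositions into zero-dimensional sets
-/

set_option autoImplicit false

open Set Topology TopologicalSpace

namespace Pool.Agent.Q138.SN

universe u v

/-- `IndLT n X`: the small inductive dimension of `X` is less than `n`. Only the empty space has
dimension less than `0`; the dimension is less than `n + 1` if every point has arbitrarily small
open neighbourhoods whose boundaries have dimension less than `n`. -/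
def IndLT : ℕ → ∀ (X : Type u) [TopologicalSpace X], Prop
  | 0, X, _ => IsEmpty X
  | n + 1, X, _ => ∀ (x : X) (U : Set X), IsOpen U → x ∈ U →
      ∃ V : Set X, IsOpen V ∧ x ∈ V ∧ V ⊆ U ∧ IndLT n (frontier V)

theorem IndLT.of_isEmpty (n : ℕ) (X : Type u) [TopologicalSpace X] [h : IsEmpty X] :
    IndLT n X := by
  cases n with
  | zero => exact h
  | succ n => exact fun x => h.elim x

/-- `X` is the union of `n` zero-dimensional sets -/
def Dec (n : ℕ) (X : Type u) [TopologicalSpace X] : Prop :=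
  ∃ Z : Fin n → Set X, (∀ i, ZD (Z i)) ∧ ∀ x, ∃ i, x ∈ Z i

theorem zd_of_coe {X : Type u} [TopologicalSpace X] {F : Set X} {Z : Set F} (hZ : ZD Z) {A : Set X}
    {S : Set A} (h : ∀ y : S, ∃ hF : (y : X) ∈ F, (⟨y, hF⟩ : F) ∈ Z) : ZD S := by
  let f : S → Z := fun y => ⟨⟨y, (h y).choose⟩, (h y).choose_spec⟩
  refine ZD.of_inducing (f := f) ?_ hZ
  have h1 : IsInducing ((fun z : Z => ((z : F) : X)) ∘ f) :=
    (IsInducing.subtypeVal.comp IsInducing.subtypeVal : IsInducing fun y : S => ((y : A) : X))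
  exact ((IsInducing.subtypeVal.comp IsInducing.subtypeVal :
    IsInducing fun z : Z => ((z : F) : X)).of_comp_iff).1 h1

/-- decompositions of countably many closed subsets give one of the union -/
theorem dec_union {X : Type u} [TopologicalSpace X] [MetrizableSpace X]
    [SecondCountableTopology X] {n : ℕ} (F : ℕ → Set X) (hF : ∀ k, IsClosed (F k))
    (hdec : ∀ k, Dec n (F k)) :
    ∃ Z : Fin n → Set X, (∀ i, ZD (Z i)) ∧ ∀ x, (∃ i, x ∈ Z i) ↔ ∃ k, x ∈ F k := by
  choose Z' hZ' hcov using hdec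
  let _ := metrizableSpaceMetric X
  -- `O k`: the complement of the earlier sets
  let O : ℕ → Set X := fun k => ⋂ j ∈ Finset.range k, (F j)ᶜ
  have hO : ∀ k, IsOpen (O k) := fun k =>
    isOpen_biInter_finset fun j _ => (hF j).isOpen_compl
  have hex : ∀ k, ∃ E : ℕ → Set X, (∀ m, IsClosed (E m)) ∧ (∀ m, E m ⊆ O k) ∧ ⋃ m, E m = O k := by
    intro k
    obtain ⟨E, h1, h2, h3, -⟩ := (hO k).exists_iUnion_isClosed
    exact ⟨E, h1, h2, h3⟩
  choose E hEc hEO hEU using hex
  have hKdis : ∀ {j k : ℕ} {x : X}, x ∈ F j → x ∈ O j → x ∈ F k → x ∈ O k → j = k := by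
    intro j k x h1 h2 h3 h4
    rcases lt_trichotomy j k with h | h | h
    · have := mem_iInter₂.1 h4 j (Finset.mem_range.2 h)
      exact (this h1).elim
    · exact h
    · have := mem_iInter₂.1 h2 k (Finset.mem_range.2 h)
      exact (this h3).elim
  have hfirst : ∀ x, (∃ k, x ∈ F k) → ∃ k, x ∈ F k ∧ x ∈ O k := by
    classical
    intro x hx
    refine ⟨Nat.find hx, Nat.find_spec hx, mem_iInter₂.2 fun j hj => ?_⟩
    exact Nat.find_min hx (Finset.mem_range.1 hj)
  refine ⟨fun i => ⋃ k, (Subtype.val '' Z' k i) ∩ O k, fun i => ?_, fun x => ⟨?_, ?_⟩⟩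
  · set Zi : Set X := ⋃ k, (Subtype.val '' Z' k i) ∩ O k with hZi
    refine (SZ.sum (fun p : ℕ => (Subtype.val ⁻¹' (F p.unpair.1 ∩ E p.unpair.1 p.unpair.2) :
      Set Zi)) (fun p => ?_) (fun p => ?_) fun x => ?_).zd
    · exact ((hF _).inter (hEc _ _)).preimage continuous_subtype_val
    · refine (zd_of_coe (hZ' p.unpair.1 i) fun y => ?_).sz
      have hy1 : ((y : Zi) : X) ∈ F p.unpair.1 := y.2.1
      have hy2 : ((y : Zi) : X) ∈ O p.unpair.1 := hEO _ _ y.2.2
      obtain ⟨k, ⟨z, hz, hzy⟩, hk⟩ := mem_iUnion.1 y.1.2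
      have hkF : ((y : Zi) : X) ∈ F k := by rw [← hzy]; exact z.2
      have hkk := hKdis hkF hk hy1 hy2
      refine ⟨hy1, ?_⟩
      subst hkk
      have : (⟨((y : Zi) : X), hy1⟩ : F p.unpair.1) = z := Subtype.ext hzy.symm
      rw [this]
      exact hz
    · obtain ⟨k, ⟨z, hz, hzx⟩, hk⟩ := mem_iUnion.1 x.2
      have hxE : (x : X) ∈ ⋃ m, E k m := by rw [hEU]; exact hk
      obtain ⟨m, hm⟩ := mem_iUnion.1 hxE
      refine ⟨Nat.pair k m, ?_⟩
      have h1 : (Nat.pair k m).unpair.1 = k := by simp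
      have h2 : (Nat.pair k m).unpair.2 = m := by simp
      change (x : X) ∈ F (Nat.pair k m).unpair.1 ∩ E (Nat.pair k m).unpair.1 (Nat.pair k m).unpair.2
      rw [h1, h2]
      exact ⟨by rw [← hzx]; exact z.2, hm⟩
  · rintro ⟨i, hi⟩
    obtain ⟨k, ⟨z, hz, rfl⟩, hk⟩ := mem_iUnion.1 hi
    exact ⟨k, z.2⟩
  · intro hx
    obtain ⟨k, h1, h2⟩ := hfirst x hx
    obtain ⟨i, hi⟩ := hcov k ⟨x, h1⟩
    exact ⟨i, mem_iUnion.2 ⟨k, ⟨_, hi, rfl⟩, h2⟩⟩

/-- a countable base from a local property of open sets -/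
theorem countable_base {X : Type u} [TopologicalSpace X] [SecondCountableTopology X]
    (p : Set X → Prop) (h0 : p ∅) (hp : ∀ (x : X) (U : Set X), IsOpen U → x ∈ U →
      ∃ V : Set X, IsOpen V ∧ x ∈ V ∧ V ⊆ U ∧ p V) :
    ∃ V : ℕ → Set X, (∀ k, IsOpen (V k) ∧ p (V k)) ∧
      ∀ (x : X) (U : Set X), IsOpen U → x ∈ U → ∃ k, x ∈ V k ∧ V k ⊆ U := by
  classical
  rcases isEmpty_or_nonempty X with hX | hX
  · exact ⟨fun _ => ∅, fun _ => ⟨isOpen_empty, h0⟩, fun x => (hX.false x).elim⟩
  set b := countableBasis X with hb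
  have hbc : b.Countable := countable_countableBasis X
  have hbb := isBasis_countableBasis X
  have hbne : b.Nonempty := by
    obtain ⟨x⟩ := hX
    obtain ⟨v, hv, -, -⟩ := hbb.exists_subset_of_mem_open (mem_univ x) isOpen_univ
    exact ⟨v, hv⟩
  obtain ⟨e, he⟩ := hbc.exists_eq_range hbne
  have key : ∀ q : ℕ, ∃ V : Set X, (IsOpen V ∧ p V) ∧
      ((∃ V : Set X, (IsOpen V ∧ p V) ∧ e q.unpair.1 ⊆ V ∧ V ⊆ e q.unpair.2) →
        e q.unpair.1 ⊆ V ∧ V ⊆ e q.unpair.2) := by
    intro q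
    by_cases h : ∃ V : Set X, (IsOpen V ∧ p V) ∧ e q.unpair.1 ⊆ V ∧ V ⊆ e q.unpair.2
    · obtain ⟨V, h1, h2⟩ := h
      exact ⟨V, h1, fun _ => h2⟩
    · exact ⟨∅, ⟨isOpen_empty, h0⟩, fun h' => (h h').elim⟩
  choose V hV hV' using key
  refine ⟨V, hV, fun x U hU hx => ?_⟩
  obtain ⟨B, hB, hxB, hBU⟩ := hbb.exists_subset_of_mem_open hx hU
  obtain ⟨V₀, h1, h2, h3, h4⟩ := hp x B (hbb.isOpen hB) hxB
  obtain ⟨B', hB', hxB', hBV⟩ := hbb.exists_subset_of_mem_open h2 h1
  rw [← hb, he] at hB hB'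
  obtain ⟨j, rfl⟩ := hB
  obtain ⟨i, rfl⟩ := hB'
  have h5 := hV' (Nat.pair i j) (by
    simp only [Nat.unpair_pair]
    exact ⟨V₀, ⟨h1, h4⟩, hBV, h3⟩)
  simp only [Nat.unpair_pair] at h5
  exact ⟨Nat.pair i j, h5.1 hxB', h5.2.trans hBU⟩

/-- **Decomposition theorem**: a separable metrizable space of dimension less than `n` is the union
of `n` zero-dimensional sets. -/
theorem dec_of_indLT (n : ℕ) : ∀ (X : Type u) [TopologicalSpace X] [MetrizableSpace X]
    [SecondCountableTopology X], IndLT n X → Dec n X := by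
  induction n with
  | zero => exact fun X _ _ _ h => ⟨fun i => i.elim0, fun i => i.elim0, fun x => (h.false x).elim⟩
  | succ n ih =>
    intro X _ _ _ h
    have h0 : IndLT n (frontier (∅ : Set X)) := by
      have : IsEmpty (frontier (∅ : Set X)) := by
        rw [frontier_empty]
        infer_instance
      exact IndLT.of_isEmpty n _
    obtain ⟨V, hV, hbase⟩ := countable_base (fun V : Set X => IndLT n (frontier V)) h0 h
    obtain ⟨Z, hZ, hcov⟩ := dec_union (fun k => frontier (V k)) (fun k => isClosed_frontier)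
      fun k => ih (frontier (V k)) (hV k).2
    refine ⟨Fin.cons (⋃ k, frontier (V k))ᶜ Z, fun i => ?_, fun x => ?_⟩
    · refine Fin.cases ?_ (fun j => ?_) i
      · rw [Fin.cons_zero]
        intro x U hU hx
        obtain ⟨U', hU', rfl⟩ := isOpen_induced_iff.1 hU
        obtain ⟨k, hk, hkU⟩ := hbase x U' hU' hx
        refine ⟨Subtype.val ⁻¹' V k, ⟨?_, (hV k).1.preimage continuous_subtype_val⟩, hk,
          preimage_mono hkU⟩
        have : (Subtype.val ⁻¹' V k : Set ((⋃ k, frontier (V k))ᶜ : Set X)) =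
            Subtype.val ⁻¹' closure (V k) := by
          ext y
          constructor
          · intro hy
            exact subset_closure hy
          · intro hy
            by_contra hn
            have : (y : X) ∈ frontier (V k) := by
              rw [(hV k).1.frontier_eq]
              exact ⟨hy, hn⟩
            exact y.2 (mem_iUnion.2 ⟨k, this⟩)
        rw [this]
        exact isClosed_closure.preimage continuous_subtype_val
      · rw [Fin.cons_succ]
        exact hZ j
    · by_cases hx : ∃ k, x ∈ frontier (V k)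
      · obtain ⟨i, hi⟩ := (hcov x).2 hx
        exact ⟨i.succ, by rw [Fin.cons_succ]; exact hi⟩
      · exact ⟨0, by rw [Fin.cons_zero]; exact fun hx' => hx (mem_iUnion.1 hx')⟩

/-- a countable base whose boundaries miss a zero-dimensional subset -/
theorem base_missing {X : Type u} [TopologicalSpace X] [MetrizableSpace X]
    [SecondCountableTopology X] {A : Set X} (hA : ZD A) :
    ∃ V : ℕ → Set X, (∀ k, IsOpen (V k) ∧ Disjoint (frontier (V k)) A) ∧
      ∀ (x : X) (U : Set X), IsOpen U → x ∈ U → ∃ k, x ∈ V k ∧ V k ⊆ U := by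
  refine countable_base (fun V : Set X => Disjoint (frontier V) A) (by simp) fun x U hU hx => ?_
  obtain ⟨V, h1, h2, h3, h4⟩ := ext hA (F := {x}) (H := Uᶜ) isClosed_singleton
    hU.isClosed_compl (by simpa using hx)
  refine ⟨V, h1, h2 rfl, fun y hy => ?_, h4⟩
  by_contra hn
  exact disjoint_left.1 h3 hy hn

end Pool.Agent.Q138.SN
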