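import Pool.Agent.Q138.SN.Dec

/-!
# Euclidean `n`-space is the union of `n + 1` zero-dimensional sets
-/

set_option autoImplicit false

open Set Topology TopologicalSpace

namespace Pool.Agent.Q138.SN

universe u v

theorem Dec.of_inducing {n : ℕ} {S : Type u} {T : Type v} [TopologicalSpace S] [TopologicalSpace T]
    {f : S → T} (hf : IsInducing f) (h : Dec n T) : Dec n S := by
  obtain ⟨Z, hZ, hcov⟩ := h
  refine ⟨fun i => f ⁻¹' Z i, fun i => ?_, fun x => hcov (f x)⟩
  let g : (f ⁻¹' Z i : Set S) → Z i := fun y => ⟨f y, y.2⟩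
  refine ZD.of_inducing (f := g) ?_ (hZ i)
  have h1 : IsInducing (Subtype.val ∘ g) :=
    (hf.comp IsInducing.subtypeVal : IsInducing fun y : (f ⁻¹' Z i : Set S) => f y)
  exact (IsInducing.subtypeVal.of_comp_iff).1 h1

theorem dec_succ {n : ℕ} {X : Type u} [TopologicalSpace X] [MetrizableSpace X]
    [SecondCountableTopology X] (F : ℕ → Set X) (hF : ∀ k, IsClosed (F k))
    (hdec : ∀ k, Dec n (F k)) (hz : ZD ((⋃ k, F k)ᶜ : Set X)) : Dec (n + 1) X := by
  obtain ⟨Z, hZ, hcov⟩ := dec_union F hF hdec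
  refine ⟨Fin.cons (⋃ k, F k)ᶜ Z, fun i => ?_, fun x => ?_⟩
  · refine Fin.cases ?_ (fun j => ?_) i
    · rw [Fin.cons_zero]
      exact hz
    · rw [Fin.cons_succ]
      exact hZ j
  · by_cases hx : ∃ k, x ∈ F k
    · obtain ⟨i, hi⟩ := (hcov x).2 hx
      exact ⟨i.succ, by rw [Fin.cons_succ]; exact hi⟩
    · exact ⟨0, by rw [Fin.cons_zero]; exact fun hx' => hx (mem_iUnion.1 hx')⟩

theorem zd_irrational (n : ℕ) : ZD {x : Fin n → ℝ | ∀ j, Irrational (x j)} := by
  intro x U hU hx
  obtain ⟨U', hU', rfl⟩ := isOpen_induced_iff.1 hU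
  obtain ⟨ε, hε, hball⟩ := Metric.isOpen_iff.1 hU' x hx
  have h1 : ∀ j : Fin n, ∃ a b : ℚ, x.1 j - ε < a ∧ (a : ℝ) < x.1 j ∧ x.1 j < b ∧
      (b : ℝ) < x.1 j + ε := by
    intro j
    obtain ⟨a, ha1, ha2⟩ := exists_rat_btwn (show x.1 j - ε < x.1 j by linarith)
    obtain ⟨b, hb1, hb2⟩ := exists_rat_btwn (show x.1 j < x.1 j + ε by linarith)
    exact ⟨a, b, ha1, ha2, hb1, hb2⟩
  choose a b h2 h3 h4 h5 using h1
  have hc : ∀ j : Fin n, Continuous fun y : {x : Fin n → ℝ | ∀ j, Irrational (x j)} => y.1 j :=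
    fun j => (continuous_apply j).comp continuous_subtype_val
  refine ⟨⋂ j, {y | (a j : ℝ) < y.1 j ∧ y.1 j < (b j : ℝ)}, isClopen_iInter_of_finite fun j => ?_,
    mem_iInter.2 fun j => ⟨h3 j, h4 j⟩, fun y hy => hball ?_⟩
  · constructor
    · have : {y : {x : Fin n → ℝ | ∀ j, Irrational (x j)} | (a j : ℝ) < y.1 j ∧ y.1 j < (b j : ℝ)} =
          {y | (a j : ℝ) ≤ y.1 j ∧ y.1 j ≤ (b j : ℝ)} := by
        ext y
        constructor
        · exact fun hy => ⟨hy.1.le, hy.2.le⟩
        · exact fun hy => ⟨lt_of_le_of_ne hy.1 fun h => (y.2 j) ⟨a j, h⟩,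
            lt_of_le_of_ne hy.2 fun h => (y.2 j) ⟨b j, h.symm⟩⟩
      rw [this]
      exact (isClosed_le continuous_const (hc j)).inter (isClosed_le (hc j) continuous_const)
    · exact (isOpen_lt continuous_const (hc j)).inter (isOpen_lt (hc j) continuous_const)
  · rw [Metric.mem_ball, dist_pi_lt_iff hε]
    intro j
    have hyj := mem_iInter.1 hy j
    rw [Real.dist_eq, abs_lt]
    constructor
    · have := hyj.1
      linarith [h2 j]
    · have := hyj.2
      linarith [h5 j]

theorem dec_pi (n : ℕ) : Dec (n + 1) (Fin n → ℝ) := by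
  induction n with
  | zero =>
    refine ⟨fun _ => univ, fun _ => ?_, fun x => ⟨0, mem_univ x⟩⟩
    intro x U hU hx
    refine ⟨univ, isClopen_univ, mem_univ _, fun y _ => ?_⟩
    have : y = x := Subsingleton.elim _ _
    rw [this]
    exact hx
  | succ n ih =>
    obtain ⟨e, he⟩ := exists_surjective_nat (Fin (n + 1) × ℚ)
    refine dec_succ (fun k => {x : Fin (n + 1) → ℝ | x (e k).1 = (e k).2}) (fun k => ?_)
      (fun k => ?_) ?_
    · exact isClosed_eq (continuous_apply _) continuous_const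
    · obtain ⟨⟨j, q⟩, hjq⟩ : ∃ p, e k = p := ⟨_, rfl⟩
      rw [hjq]
      let f : {x : Fin (n + 1) → ℝ | x j = q} → (Fin n → ℝ) := fun x => j.removeNth x.1
      let g : (Fin n → ℝ) → {x : Fin (n + 1) → ℝ | x j = q} := fun y =>
        ⟨j.insertNth (q : ℝ) y, by simp⟩
      have hgf : Function.LeftInverse g f := by
        rintro ⟨x, hx⟩
        refine Subtype.ext ?_
        change j.insertNth (q : ℝ) (j.removeNth x) = x
        have hx' : x j = q := hx
        rw [← hx']
        exact Fin.insertNth_self_removeNth j x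
      have hf : Continuous f :=
        continuous_pi fun i => (continuous_apply (j.succAbove i)).comp continuous_subtype_val
      have hg : Continuous g := by
        refine Continuous.subtype_mk ?_ _
        exact Continuous.finInsertNth (A := fun _ => ℝ) j continuous_const continuous_id
      exact ih.of_inducing (hgf.isEmbedding hg hf).isInducing
    · have : (⋃ k, {x : Fin (n + 1) → ℝ | x (e k).1 = (e k).2})ᶜ =
          {x : Fin (n + 1) → ℝ | ∀ j, Irrational (x j)} := by
        ext x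
        constructor
        · intro hx j hj
          obtain ⟨q, hq⟩ := hj
          obtain ⟨k, hk⟩ := he (j, q)
          exact hx (mem_iUnion.2 ⟨k, by
            change x (e k).1 = (e k).2
            rw [hk]
            exact hq.symm⟩)
        · intro hx hx'
          obtain ⟨k, hk⟩ := mem_iUnion.1 hx'
          exact hx (e k).1 ⟨(e k).2, Eq.symm hk⟩
      rw [this]
      exact zd_irrational (n + 1)

theorem dec_euclid (n : ℕ) : Dec (n + 1) (EuclideanSpace ℝ (Fin n)) :=
  (dec_pi n).of_inducing (EuclideanSpace.equiv (Fin n) ℝ).toHomeomorph.isInducing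

end Pool.Agent.Q138.SN
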