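import Pool.Agent.Q138.SN.Dec

/-!
# Zero-dimensional separable extensions of a topology
-/

set_option autoImplicit false

open Set Topology TopologicalSpace

namespace Pool.Agent.Q138.SN

universe u

open Classical in
/-- the point of the Cantor set which records the sets `V k` that contain `x` -/
noncomputable def code {X : Type u} (V : ℕ → Set X) (x : X) : ℕ → Bool := fun k => decide (x ∈ V k)

/-- the topology for which all `V k` are clopen -/
@[reducible] noncomputable def cantorTop {X : Type u} (V : ℕ → Set X) : TopologicalSpace X :=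
  TopologicalSpace.induced (code V) inferInstance

theorem isOpen_code {X : Type u} (V : ℕ → Set X) (k : ℕ) : IsOpen[cantorTop V] (V k) := by
  refine ⟨{f : ℕ → Bool | f k = true}, ?_, ?_⟩
  · exact (isOpen_discrete ({true} : Set Bool)).preimage
      (continuous_apply k : Continuous fun f : ℕ → Bool => f k)
  · ext x
    simp [code]

theorem le_of_base {X : Type u} [τ : TopologicalSpace X] (V : ℕ → Set X)
    (hb : ∀ (x : X) (U : Set X), IsOpen U → x ∈ U → ∃ k, x ∈ V k ∧ V k ⊆ U) :
    cantorTop V ≤ τ := by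
  intro U hU
  have : U = ⋃ k ∈ {k | V k ⊆ U}, V k := by
    ext x
    constructor
    · intro hx
      obtain ⟨k, h1, h2⟩ := hb x U hU hx
      exact mem_biUnion (x := k) h2 h1
    · intro hx
      simp only [mem_iUnion] at hx
      obtain ⟨k, hk, hxk⟩ := hx
      exact hk hxk
  rw [this]
  let _ := cantorTop V
  exact isOpen_biUnion fun k _ => isOpen_code V k

theorem code_injective {X : Type u} [τ : TopologicalSpace X] [T1Space X] (V : ℕ → Set X)
    (hb : ∀ (x : X) (U : Set X), IsOpen U → x ∈ U → ∃ k, x ∈ V k ∧ V k ⊆ U) :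
    Function.Injective (code V) := by
  intro x y hxy
  by_contra hne
  obtain ⟨k, h1, h2⟩ := hb x {y}ᶜ isOpen_compl_singleton hne
  have h3 : code V x k = code V y k := by rw [hxy]
  simp only [code, decide_eq_decide] at h3
  exact h2 (h3.1 h1) rfl

theorem cantor_zd : ZD (ℕ → Bool) := by
  intro f U hU hf
  obtain ⟨I, u, hu, hIU⟩ := isOpen_pi_iff.1 hU f hf
  refine ⟨{g | ∀ k ∈ I, g k = f k}, ?_, fun k _ => rfl, fun g hg => hIU ?_⟩
  · have : {g : ℕ → Bool | ∀ k ∈ I, g k = f k} = ⋂ k ∈ I, (fun g => g k) ⁻¹' {f k} := by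
      ext g
      simp
    rw [this]
    exact isClopen_biInter_finset fun k _ => (isClopen_discrete _).preimage (continuous_apply k)
  · intro k hk
    rw [hg k hk]
    exact (hu k hk).2

theorem cantorTop_props {X : Type u} [τ : TopologicalSpace X] [T1Space X] (V : ℕ → Set X)
    (hb : ∀ (x : X) (U : Set X), IsOpen U → x ∈ U → ∃ k, x ∈ V k ∧ V k ⊆ U) :
    @SecondCountableTopology X (cantorTop V) ∧ @MetrizableSpace X (cantorTop V) ∧
      @ZD X (cantorTop V) := by
  let _ := cantorTop V
  have hi : IsInducing (code V) := ⟨rfl⟩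
  have he : IsEmbedding (code V) := ⟨hi, code_injective (τ := τ) V hb⟩
  exact ⟨hi.secondCountableTopology, he.metrizableSpace, cantor_zd.of_inducing hi⟩

theorem ZD.indLT {X : Type u} [TopologicalSpace X] (h : ZD X) : IndLT 1 X := by
  intro x U hU hx
  obtain ⟨C, hC, h1, h2⟩ := h x U hU hx
  refine ⟨C, hC.isOpen, h1, h2, ?_⟩
  have : frontier C = ∅ := hC.frontier_eq
  exact isEmpty_subtype _ |>.2 fun x hx => by rw [this] at hx; exact hx

/-- if `V k` is a base whose boundaries miss `x`, then `x` has the same neighbourhoods in both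
topologies -/
theorem nhds_le {X : Type u} [τ : TopologicalSpace X] (V : ℕ → Set X) (hV : ∀ k, IsOpen (V k))
    {x : X} (hx : ∀ k, x ∉ frontier (V k)) : @nhds X τ x ≤ @nhds X (cantorTop V) x := by
  have h1 : @nhds X (cantorTop V) x = Filter.comap (code V) (𝓝 (code V x)) := nhds_induced _ _
  rw [h1, ← Filter.tendsto_iff_comap, tendsto_pi_nhds]
  intro k
  by_cases hk : x ∈ V k
  · have : ∀ᶠ y in 𝓝 x, code V y k = code V x k := by
      filter_upwards [(hV k).mem_nhds hk] with y hy
      simp [code, hy, hk]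
    exact tendsto_nhds_of_eventually_eq this
  · have h2 : x ∉ closure (V k) := fun h => hx k (by rw [(hV k).frontier_eq]; exact ⟨h, hk⟩)
    have : ∀ᶠ y in 𝓝 x, code V y k = code V x k := by
      filter_upwards [isClosed_closure.isOpen_compl.mem_nhds h2] with y hy
      have hy' : y ∉ V k := fun h => hy (subset_closure h)
      simp [code, hy', hk]
    exact tendsto_nhds_of_eventually_eq this

/-- the main construction -/
theorem main {n : ℕ} {X : Type u} [τ : TopologicalSpace X] [MetrizableSpace X]
    [SecondCountableTopology X] (h : Dec n X) :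
    ∃ t : Fin n → TopologicalSpace X, (∀ i, t i ≤ τ ∧ @SecondCountableTopology X (t i) ∧
      @MetrizableSpace X (t i) ∧ @ZD X (t i)) ∧
      ∀ U : Set X, IsOpen[τ] U ↔ ∀ i, IsOpen[t i] U := by
  obtain ⟨Z, hZ, hcov⟩ := h
  choose V hV hb using fun i => base_missing (hZ i)
  refine ⟨fun i => cantorTop (V i), fun i => ⟨le_of_base (V i) (hb i),
    cantorTop_props (V i) (hb i)⟩, fun U => ⟨fun hU i => le_of_base (V i) (hb i) U hU, fun hU => ?_⟩⟩
  rw [isOpen_iff_mem_nhds]
  intro x hx
  obtain ⟨i, hi⟩ := hcov x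
  have h1 := nhds_le (V i) (fun k => (hV i k).1) (x := x) fun k hk =>
    disjoint_left.1 (hV i k).2 hk hi
  have h2 : U ∈ @nhds X (cantorTop (V i)) x := @IsOpen.mem_nhds X (cantorTop (V i)) x U (hU i) hx
  exact h1 h2

end Pool.Agent.Q138.SN
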