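import Mathlib

/-!
# Zero-dimensional spaces, sums, and extension of partitions
-/

set_option autoImplicit false

open Set Topology TopologicalSpace

namespace Pool.Agent.Q138.SN

universe u v

/-- the clopen sets form a base: `ind T ≤ 0` -/
def ZD (T : Type u) [TopologicalSpace T] : Prop :=
  ∀ (x : T) (U : Set T), IsOpen U → x ∈ U → ∃ C : Set T, IsClopen C ∧ x ∈ C ∧ C ⊆ U

/-- disjoint closed sets are separated by clopen sets -/
def SZ (T : Type u) [TopologicalSpace T] : Prop :=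
  ∀ F H : Set T, IsClosed F → IsClosed H → Disjoint F H →
    ∃ C : Set T, IsClopen C ∧ F ⊆ C ∧ Disjoint C H

theorem ZD.of_inducing {S : Type u} {T : Type v} [TopologicalSpace S] [TopologicalSpace T]
    {f : S → T} (hf : IsInducing f) (h : ZD T) : ZD S := by
  intro x U hU hx
  obtain ⟨U', hU', rfl⟩ := hf.isOpen_iff.1 hU
  obtain ⟨C, hC, hxC, hCU⟩ := h (f x) U' hU' hx
  exact ⟨f ⁻¹' C, hC.preimage hf.continuous, hxC, preimage_mono hCU⟩

theorem SZ.zd {T : Type u} [TopologicalSpace T] [T1Space T] (h : SZ T) : ZD T := by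
  intro x U hU hx
  obtain ⟨C, hC, h1, h2⟩ := h {x} Uᶜ isClosed_singleton hU.isClosed_compl (by simpa using hx)
  refine ⟨C, hC, h1 rfl, fun y hy => ?_⟩
  by_contra hn
  exact disjoint_left.1 h2 hy hn

theorem ZD.sz {T : Type u} [TopologicalSpace T] [SecondCountableTopology T] (h : ZD T) :
    SZ T := by
  intro F H hF hH hd
  rcases isEmpty_or_nonempty T with hT | hT
  · exact ⟨∅, isClopen_empty, fun x => (hT.false x).elim, disjoint_left.2 fun x => (hT.false x).elim⟩
  have key : ∀ x : T, ∃ C : Set T, IsClopen C ∧ x ∈ C ∧ (Disjoint C H ∨ Disjoint C F) := by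
    intro x
    by_cases hx : x ∈ H
    · have hxF : x ∈ Fᶜ := fun hxF => disjoint_left.1 hd hxF hx
      obtain ⟨C, h1, h2, h3⟩ := h x Fᶜ hF.isOpen_compl hxF
      exact ⟨C, h1, h2, Or.inr (disjoint_left.2 fun y hy hyF => h3 hy hyF)⟩
    · obtain ⟨C, h1, h2, h3⟩ := h x Hᶜ hH.isOpen_compl hx
      exact ⟨C, h1, h2, Or.inl (disjoint_left.2 fun y hy hyF => h3 hy hyF)⟩
  choose C hC hxC hdis using key
  obtain ⟨s, hs, hcov⟩ := TopologicalSpace.countable_cover_nhds (f := C) fun x =>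
    (hC x).isOpen.mem_nhds (hxC x)
  have hsne : s.Nonempty := by
    obtain ⟨x⟩ := hT
    have hx : x ∈ ⋃ y ∈ s, C y := by rw [hcov]; trivial
    simp only [mem_iUnion] at hx
    obtain ⟨y, hy, -⟩ := hx
    exact ⟨y, hy⟩
  obtain ⟨e, he⟩ := hs.exists_eq_range hsne
  set f : ℕ → Set T := fun k => C (e k) with hf
  have hclop : ∀ k, IsClopen (disjointed f k) := fun k =>
    disjointedRec (p := fun t : Set T => IsClopen t) (fun t i ht => ht.diff (hC (e i))) (hC (e k))
  have hcov' : ∀ x : T, ∃ k, x ∈ disjointed f k := by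
    intro x
    have hx : x ∈ ⋃ k, disjointed f k := by
      rw [iUnion_disjointed]
      have hx : x ∈ ⋃ y ∈ s, C y := by rw [hcov]; trivial
      simp only [mem_iUnion] at hx
      obtain ⟨y, hy, hxy⟩ := hx
      rw [he] at hy
      obtain ⟨k, rfl⟩ := hy
      exact mem_iUnion.2 ⟨k, hxy⟩
    exact mem_iUnion.1 hx
  have hpair : ∀ {j k : ℕ} {x : T}, x ∈ disjointed f j → x ∈ disjointed f k → j = k := by
    intro j k x hj hk
    by_contra hne
    exact disjoint_left.1 (disjoint_disjointed f hne) hj hk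
  set W : Set T := ⋃ k ∈ {k : ℕ | Disjoint (f k) H}, disjointed f k with hW
  have hWo : IsOpen W := isOpen_biUnion fun k _ => (hclop k).isOpen
  have hWc : Wᶜ = ⋃ k ∈ {k : ℕ | ¬ Disjoint (f k) H}, disjointed f k := by
    ext x
    obtain ⟨k, hk⟩ := hcov' x
    constructor
    · intro hx
      refine mem_biUnion (x := k) ?_ hk
      intro hd'
      exact hx (mem_biUnion (x := k) hd' hk)
    · intro hx hxW
      simp only [mem_iUnion] at hx
      simp only [hW, mem_iUnion] at hxW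
      obtain ⟨j, hj, hxj⟩ := hx
      obtain ⟨l, hl, hxl⟩ := hxW
      have hjl := hpair hxj hxl
      subst hjl
      exact hj hl
  refine ⟨W, ⟨?_, hWo⟩, fun x hx => ?_, disjoint_left.2 fun x hx hxH => ?_⟩
  · rw [← isOpen_compl_iff, hWc]
    exact isOpen_biUnion fun k _ => (hclop k).isOpen
  · obtain ⟨k, hk⟩ := hcov' x
    have hk' : x ∈ f k := disjointed_subset f k hk
    rcases hdis (e k) with h1 | h1
    · exact mem_biUnion (x := k) h1 hk
    · exact (disjoint_left.1 h1 hk' hx).elim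
  · simp only [hW, mem_iUnion] at hx
    obtain ⟨l, hl, hxl⟩ := hx
    exact disjoint_left.1 hl (disjointed_subset f l hxl) hxH

theorem exists_closures {T : Type u} [TopologicalSpace T] [NormalSpace T] {P Q : Set T}
    (hP : IsClosed P) (hQ : IsClosed Q) (hd : Disjoint P Q) :
    ∃ G W : Set T, IsOpen G ∧ IsOpen W ∧ P ⊆ G ∧ Q ⊆ W ∧ Disjoint (closure G) (closure W) := by
  obtain ⟨U, V, hU, hV, hPU, hQV, hUV⟩ := normal_separation hP hQ hd
  obtain ⟨G, hG, hPG, hGU⟩ := normal_exists_closure_subset hP hU hPU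
  obtain ⟨W, hW, hQW, hWV⟩ := normal_exists_closure_subset hQ hV hQV
  exact ⟨G, W, hG, hW, hPG, hQW, hUV.mono hGU hWV⟩

theorem sum_step {T : Type u} [TopologicalSpace T] [NormalSpace T] {A P Q : Set T}
    (hA : IsClosed A) (hz : SZ A) (hP : IsClosed P) (hQ : IsClosed Q) (hd : Disjoint P Q) :
    ∃ P' Q' : Set T, IsClosed P' ∧ IsClosed Q' ∧ Disjoint P' Q' ∧ P ⊆ interior P' ∧
      Q ⊆ interior Q' ∧ A ⊆ interior P' ∪ interior Q' := by
  obtain ⟨C, hC, hPC, hCQ⟩ := hz ((↑) ⁻¹' P) ((↑) ⁻¹' Q) (hP.preimage continuous_subtype_val)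
    (hQ.preimage continuous_subtype_val) (hd.preimage _)
  have hcl := hA.isClosedEmbedding_subtypeVal.isClosedMap
  have h1 : IsClosed (P ∪ Subtype.val '' C) := hP.union (hcl C hC.isClosed)
  have h2 : IsClosed (Q ∪ Subtype.val '' Cᶜ) := hQ.union (hcl _ hC.isOpen.isClosed_compl)
  have h3 : Disjoint (P ∪ Subtype.val '' C) (Q ∪ Subtype.val '' Cᶜ) := by
    rw [disjoint_left]
    rintro x (hx | ⟨y, hy, rfl⟩) (hx' | ⟨z, hz', hzx⟩)
    · exact disjoint_left.1 hd hx hx'
    · subst hzx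
      exact hz' (hPC hx)
    · exact disjoint_left.1 hCQ hy hx'
    · have : z = y := Subtype.ext hzx
      subst this
      exact hz' hy
  obtain ⟨G, W, hG, hW, hPG, hQW, hGW⟩ := exists_closures h1 h2 h3
  have hGi : G ⊆ interior (closure G) := interior_maximal subset_closure hG
  have hWi : W ⊆ interior (closure W) := interior_maximal subset_closure hW
  refine ⟨closure G, closure W, isClosed_closure, isClosed_closure, hGW,
    fun x hx => hGi (hPG (Or.inl hx)), fun x hx => hWi (hQW (Or.inl hx)), fun x hx => ?_⟩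
  by_cases hxC : (⟨x, hx⟩ : A) ∈ C
  · exact Or.inl (hGi (hPG (Or.inr ⟨_, hxC, rfl⟩)))
  · exact Or.inr (hWi (hQW (Or.inr ⟨_, hxC, rfl⟩)))

/-- the countable closed sum theorem in dimension zero -/
theorem SZ.sum {T : Type u} [TopologicalSpace T] [NormalSpace T] (A : ℕ → Set T)
    (hA : ∀ k, IsClosed (A k)) (hz : ∀ k, SZ (A k)) (hcov : ∀ x, ∃ k, x ∈ A k) : SZ T := by
  intro F H hF hH hd
  have step : ∀ (k : ℕ) (p : {p : Set T × Set T // IsClosed p.1 ∧ IsClosed p.2 ∧ Disjoint p.1 p.2}),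
      ∃ q : {p : Set T × Set T // IsClosed p.1 ∧ IsClosed p.2 ∧ Disjoint p.1 p.2},
        p.1.1 ⊆ interior q.1.1 ∧ p.1.2 ⊆ interior q.1.2 ∧
          A k ⊆ interior q.1.1 ∪ interior q.1.2 := by
    rintro k ⟨⟨P, Q⟩, hP, hQ, hPQ⟩
    obtain ⟨P', Q', h1, h2, h3, h4, h5, h6⟩ := sum_step (hA k) (hz k) hP hQ hPQ
    exact ⟨⟨(P', Q'), h1, h2, h3⟩, h4, h5, h6⟩
  choose nx hnx using step
  let S : ℕ → {p : Set T × Set T // IsClosed p.1 ∧ IsClosed p.2 ∧ Disjoint p.1 p.2} :=
    fun k => Nat.rec ⟨(F, H), hF, hH, hd⟩ (fun k p => nx k p) k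
  have hS : ∀ k, S (k + 1) = nx k (S k) := fun k => rfl
  have m1 : ∀ k, (S k).1.1 ⊆ interior (S (k + 1)).1.1 := fun k => by
    rw [hS]; exact (hnx k (S k)).1
  have m2 : ∀ k, (S k).1.2 ⊆ interior (S (k + 1)).1.2 := fun k => by
    rw [hS]; exact (hnx k (S k)).2.1
  have m3 : ∀ k, A k ⊆ interior (S (k + 1)).1.1 ∪ interior (S (k + 1)).1.2 := fun k => by
    rw [hS]; exact (hnx k (S k)).2.2
  have mono1 : Monotone fun k => (S k).1.1 :=
    monotone_nat_of_le_succ fun k => (m1 k).trans interior_subset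
  have mono2 : Monotone fun k => (S k).1.2 :=
    monotone_nat_of_le_succ fun k => (m2 k).trans interior_subset
  have hdis : ∀ j k (x : T), x ∈ (S j).1.1 → x ∈ (S k).1.2 → False := by
    intro j k x hj hk
    exact disjoint_left.1 (S (max j k)).2.2.2 (mono1 (le_max_left j k) hj)
      (mono2 (le_max_right j k) hk)
  set G : Set T := ⋃ k, interior (S k).1.1 with hG
  have hGo : IsOpen G := isOpen_iUnion fun k => isOpen_interior
  have hGc : Gᶜ = ⋃ k, interior (S k).1.2 := by
    ext x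
    constructor
    · intro hx
      obtain ⟨k, hk⟩ := hcov x
      rcases m3 k hk with h | h
      · exact (hx (mem_iUnion.2 ⟨k + 1, h⟩)).elim
      · exact mem_iUnion.2 ⟨k + 1, h⟩
    · intro hx hxG
      obtain ⟨k, hk⟩ := mem_iUnion.1 hx
      obtain ⟨j, hj⟩ := mem_iUnion.1 hxG
      exact hdis j k x (interior_subset hj) (interior_subset hk)
  refine ⟨G, ⟨?_, hGo⟩, fun x hx => mem_iUnion.2 ⟨1, m1 0 hx⟩, disjoint_left.2 fun x hx hxH => ?_⟩
  · rw [← isOpen_compl_iff, hGc]
    exact isOpen_iUnion fun k => isOpen_interior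
  · obtain ⟨j, hj⟩ := mem_iUnion.1 hx
    exact hdis j 0 x (interior_subset hj) hxH

/-- partitions which miss a zero-dimensional subset -/
theorem ext {X : Type u} [TopologicalSpace X] [MetrizableSpace X] [SecondCountableTopology X]
    {A : Set X} (hA : ZD A) {F H : Set X} (hF : IsClosed F) (hH : IsClosed H)
    (hd : Disjoint F H) :
    ∃ V : Set X, IsOpen V ∧ F ⊆ V ∧ Disjoint V H ∧ Disjoint (frontier V) A := by
  obtain ⟨G, W, hG, hW, hFG, hHW, hGW⟩ := exists_closures hF hH hd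
  obtain ⟨C, hC, hFC, hCH⟩ := hA.sz ((↑) ⁻¹' closure G) ((↑) ⁻¹' closure W)
    (isClosed_closure.preimage continuous_subtype_val)
    (isClosed_closure.preimage continuous_subtype_val) (hGW.preimage _)
  have hcl : ∀ D : Set A, IsClosed D → ∀ x : A, (x : X) ∈ closure (Subtype.val '' D) → x ∈ D :=
    fun D hD x hx => by
      have := closure_subtype.2 hx
      rwa [hD.closure_eq] at this
  have h1 : Disjoint (closure (F ∪ Subtype.val '' C)) (H ∪ Subtype.val '' Cᶜ) := by
    rw [closure_union, hF.closure_eq, disjoint_left]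
    rintro x (hx | hx) (hx' | ⟨z, hz, rfl⟩)
    · exact disjoint_left.1 hd hx hx'
    · exact hz (hFC (subset_closure (hFG hx)))
    · have h2 : Disjoint (Subtype.val '' C) W := by
        rw [disjoint_left]
        rintro _ ⟨y, hy, rfl⟩ hyW
        exact disjoint_left.1 hCH hy (subset_closure hyW)
      exact disjoint_left.1 (h2.closure_left hW) hx (hHW hx')
    · exact hz (hcl C hC.isClosed z hx)
  have h2 : Disjoint (F ∪ Subtype.val '' C) (closure (H ∪ Subtype.val '' Cᶜ)) := by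
    rw [closure_union, hH.closure_eq, disjoint_left]
    rintro x (hx | ⟨z, hz, rfl⟩) (hx' | hx')
    · exact disjoint_left.1 hd hx hx'
    · have h2 : Disjoint (Subtype.val '' Cᶜ) G := by
        rw [disjoint_left]
        rintro _ ⟨y, hy, rfl⟩ hyG
        exact hy (hFC (subset_closure hyG))
      exact disjoint_left.1 (h2.closure_left hG) hx' (hFG hx)
    · exact disjoint_left.1 hCH hz (subset_closure (hHW hx'))
    · exact hcl Cᶜ hC.isOpen.isClosed_compl z hx' hz
  let _ := metrizableSpaceMetric X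
  obtain ⟨V, V', hV, hV', hFV, hHV, hVV⟩ :=
    separatedNhds_iff_disjoint.2 (CompletelyNormalSpace.completely_normal h1 h2)
  refine ⟨V, hV, fun x hx => hFV (Or.inl hx), disjoint_left.2 fun x hx hxH =>
    disjoint_left.1 hVV hx (hHV (Or.inl hxH)), disjoint_left.2 fun x hx hxA => ?_⟩
  by_cases hxC : (⟨x, hxA⟩ : A) ∈ C
  · have : x ∈ V := hFV (Or.inr ⟨_, hxC, rfl⟩)
    rw [hV.frontier_eq] at hx
    exact hx.2 this
  · have h3 : x ∈ V' := hHV (Or.inr ⟨_, hxC, rfl⟩)
    exact disjoint_left.1 (hVV.closure_left hV') (frontier_subset_closure hx) h3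

end Pool.Agent.Q138.SN
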